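import Pool.Agent.H545Z.SSDMain

namespace Pool.Agent.Results.MP_a7d15e_an.Bidual

open Pool.Agent.H545Z.SSD

/-- There is a real Banach space with the SSD2P whose bidual fails the SSD2P. -/
theorem result : ∃ (X : Type) (_ : NormedAddCommGroup X) (_ : NormedSpace ℝ X)
    (_ : CompleteSpace X), SSD2P X ∧ ¬ SSD2P (StrongDual ℝ (StrongDual ℝ X)) :=
  ⟨X, inferInstance, inferInstance, inferInstance, X_ssd, X_bidual⟩

end Pool.Agent.Results.MP_a7d15e_an.Bidual
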